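import Pool.Agent.Y416.FS.Core
import Pool.Agent.Helper235.Assemble

/-!
# Popular square differences: the set without popular differences, for a given density
-/

open Finset Pool.Agent.Helper235.Chars Pool.Agent.Helper235.Round

namespace Pool.Agent.Y416.FS

section
variable {L R S K : ℕ} {Pa Pb : Finset ℕ}

lemma rho_nonneg (L R S : ℕ) : 0 ≤ rho L R S := by unfold rho; positivity

lemma rho_le_one (H : Dat L R S K Pa Pb) (hS : 1 ≤ S) : rho L R S ≤ 1 := by
  have hR : (1 : ℝ) ≤ R := by exact_mod_cast (by have := H.hL; have := H.hLR; omega : 1 ≤ R)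
  have hS' : (1 : ℝ) ≤ S := by exact_mod_cast hS
  have hLR : (L : ℝ) ≤ R := by exact_mod_cast H.hLR
  unfold rho
  rw [div_le_one (by positivity)]
  have h1 : (R : ℝ) ≤ (R : ℝ) ^ 4 := by
    calc (R : ℝ) = (R : ℝ) ^ 1 := (pow_one _).symm
      _ ≤ _ := pow_le_pow_right₀ hR (by norm_num)
  have h2 : (1 : ℝ) ≤ (S : ℝ) ^ 2 := one_le_pow₀ hS'
  have h3 : (1 : ℝ) * (R : ℝ) ^ 4 ≤ (32 * (S : ℝ) ^ 2) * (R : ℝ) ^ 4 :=
    mul_le_mul_of_nonneg_right (by linarith) (by positivity)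
  linarith

/-- the correlation of `d + k g` along the shift `a y ^ 2` -/
lemma corr_dk (H : Dat L R S K Pa Pb) (hS : 1 ≤ S) (a y T n N : ℕ) (ha1 : 1 ≤ a) (haK : a ≤ K)
    (hy : 0 < y) (hyT : y < L ^ T) (hT : 2 * T ≤ S)
    (hcond : 16 * (R : ℝ) ^ 2 * (T : ℝ) ^ 2 ≤ L * (S : ℝ) ^ 2) (hnN : n ≤ N)
    (d k : ℝ) (hk : 0 ≤ k) (hkd : k ≤ d) (hd : d ≤ 1) :
    ∑ x ∈ range n, (d + k * gg L R S Pa Pb x) * (d + k * gg L R S Pa Pb (x + a * y ^ 2)) ≤
      N * (d ^ 2 - k ^ 2 * rho L R S) + 5 * (R : ℝ) ^ 4 := by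
  have hR : (1 : ℝ) ≤ R := by exact_mod_cast (by have := H.hL; have := H.hLR; omega : 1 ≤ R)
  have e : ∑ x ∈ range n, (d + k * gg L R S Pa Pb x) * (d + k * gg L R S Pa Pb (x + a * y ^ 2)) =
      n * d ^ 2 + d * k * (∑ x ∈ range n, gg L R S Pa Pb x +
        ∑ x ∈ range n, gg L R S Pa Pb (x + a * y ^ 2)) +
        k ^ 2 * ∑ x ∈ range n, gg L R S Pa Pb x * gg L R S Pa Pb (x + a * y ^ 2) := by
    have : ∀ x, (d + k * gg L R S Pa Pb x) * (d + k * gg L R S Pa Pb (x + a * y ^ 2)) =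
        d ^ 2 + d * k * (gg L R S Pa Pb x + gg L R S Pa Pb (x + a * y ^ 2)) +
          k ^ 2 * (gg L R S Pa Pb x * gg L R S Pa Pb (x + a * y ^ 2)) := by intro x; ring
    simp_rw [this]
    rw [Finset.sum_add_distrib, Finset.sum_add_distrib, ← Finset.mul_sum, ← Finset.mul_sum,
      Finset.sum_add_distrib]
    simp
  rw [e]
  have h1 := (abs_le.mp (gg_lin H hS n)).2
  have h2 := (abs_le.mp (gg_lin_shift H hS n (a * y ^ 2))).2
  have h3 := gg_corr H hS a y T n ha1 haK hy hyT hT hcond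
  have hrho := rho_le_one H hS
  have hrho0 := rho_nonneg L R S
  have hk1 : k ≤ 1 := hkd.trans hd
  have hd0 : 0 ≤ d := hk.trans hkd
  have hdk : d * k ≤ 1 := mul_le_one₀ hd hk hk1
  have hk2 : k ^ 2 ≤ 1 := pow_le_one₀ hk hk1
  have a1 : d * k * (∑ x ∈ range n, gg L R S Pa Pb x +
        ∑ x ∈ range n, gg L R S Pa Pb (x + a * y ^ 2)) ≤ 1 * (3 * (R : ℝ) ^ 2) := by
    calc _ ≤ d * k * (3 * (R : ℝ) ^ 2) :=
          mul_le_mul_of_nonneg_left (by linarith) (mul_nonneg hd0 hk)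
      _ ≤ _ := mul_le_mul_of_nonneg_right hdk (by positivity)
  have a2 : k ^ 2 * ∑ x ∈ range n, gg L R S Pa Pb x * gg L R S Pa Pb (x + a * y ^ 2) ≤
      -(n * (k ^ 2 * rho L R S)) + 1 * (2 * (R : ℝ) ^ 4) := by
    calc _ ≤ k ^ 2 * (-(n * rho L R S) + 2 * (R : ℝ) ^ 4) :=
          mul_le_mul_of_nonneg_left h3 (by positivity)
      _ = -(n * (k ^ 2 * rho L R S)) + k ^ 2 * (2 * (R : ℝ) ^ 4) := by ring
      _ ≤ _ := by
          have := mul_le_mul_of_nonneg_right hk2 (by positivity : (0 : ℝ) ≤ 2 * (R : ℝ) ^ 4)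
          linarith
  have a3 : (R : ℝ) ^ 2 ≤ (R : ℝ) ^ 4 := pow_le_pow_right₀ hR (by norm_num)
  have a4 : 0 ≤ d ^ 2 - k ^ 2 * rho L R S := by
    have h5 : k ^ 2 * rho L R S ≤ k ^ 2 * 1 := mul_le_mul_of_nonneg_left hrho (by positivity)
    have h6 : k ^ 2 ≤ d ^ 2 := pow_le_pow_left₀ hk hkd 2
    linarith
  have a5 : (n : ℝ) * (d ^ 2 - k ^ 2 * rho L R S) ≤ N * (d ^ 2 - k ^ 2 * rho L R S) :=
    mul_le_mul_of_nonneg_right (by exact_mod_cast hnN) a4
  linarith

/-- There is a subset of `{1, …, N}` of density at least `δ` which has few popular differences of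
the form `a y ^ 2`, `0 < |a| ≤ K`. -/
def NoPop (ε δ : ℝ) (N K : ℕ) : Prop :=
  ∃ A : Finset ℤ, A ⊆ Finset.Icc 1 (N : ℤ) ∧ δ * N ≤ (A.card : ℝ) ∧
    ∀ y : ℤ, y ≠ 0 → ∀ a : ℤ, a ≠ 0 → |a| ≤ (K : ℤ) →
      ((A.filter (fun x => x + a * y ^ 2 ∈ A)).card : ℝ) < (δ ^ 2 - ε) * N

/-- symmetric counts -/
lemma count_neg (A : Finset ℤ) (h : ℤ) :
    (A.filter (fun x => x + -h ∈ A)).card ≤ (A.filter (fun x => x + h ∈ A)).card := by
  apply Finset.card_le_card_of_injOn (fun x => x + -h)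
  · intro x hx
    simp only [Finset.coe_filter, Set.mem_setOf_eq] at hx ⊢
    refine ⟨hx.2, ?_⟩
    have : x + -h + h = x := by ring
    rw [this]
    exact hx.1
  · intro x _ y _ hxy
    simpa using hxy

theorem bad_core (H : Dat L R S K Pa Pb) (hS : 1 ≤ S) (T : ℕ) (hT : 2 * T ≤ S)
    (hcond : 16 * (R : ℝ) ^ 2 * (T : ℝ) ^ 2 ≤ L * (S : ℝ) ^ 2) (N : ℕ) (hN1 : 1 ≤ N)
    (hNT : N ≤ L ^ (2 * T)) (X : ℝ) (hX0 : 0 ≤ X)
    (hX : (N : ℝ) * (K * Nat.sqrt N + 1) ≤ X ^ 2) (ε δ κ : ℝ) (hκ : 0 < κ) (hκδ : κ ≤ δ)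
    (hκδ' : κ ≤ 1 - δ) (hbig : 8 * (R : ℝ) ^ 4 + 4 * X < N * (κ ^ 2 * rho L R S / 8))
    (hε : ε ≤ κ ^ 2 * rho L R S / 8) : NoPop ε δ N K := by
  have hR : (1 : ℝ) ≤ R := by exact_mod_cast (by have := H.hL; have := H.hLR; omega : 1 ≤ R)
  have hN0 : (0 : ℝ) < N := by exact_mod_cast hN1
  have hrho := rho_le_one H hS
  have hrho0 := rho_nonneg L R S
  have hR24 : (R : ℝ) ^ 2 ≤ (R : ℝ) ^ 4 := pow_le_pow_right₀ hR (by norm_num)
  have hR2 : (0 : ℝ) < (R : ℝ) ^ 2 := by positivity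
  have hκ1 : κ ≤ 1 / 2 := by linarith
  set θ : ℝ := ((R : ℝ) ^ 2 + X) / N with hθ
  have hθ0 : 0 < θ := by rw [hθ]; positivity
  have hθN : N * θ = (R : ℝ) ^ 2 + X := by rw [hθ]; field_simp
  have hκρ : κ ^ 2 * rho L R S ≤ κ := by
    calc κ ^ 2 * rho L R S ≤ κ ^ 2 * 1 := mul_le_mul_of_nonneg_left hrho (by positivity)
      _ = κ * κ := by ring
      _ ≤ κ * 1 := mul_le_mul_of_nonneg_left (by linarith) hκ.le
      _ = κ := mul_one κ
  have hθκ : θ ≤ κ / 2 := by
    have h1 : N * θ ≤ N * (κ / 2) := by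
      rw [hθN]
      have h2 : (N : ℝ) * (κ ^ 2 * rho L R S / 8) ≤ N * (κ / 2) :=
        mul_le_mul_of_nonneg_left (by linarith) hN0.le
      linarith
    exact le_of_mul_le_mul_left h1 hN0
  set d : ℝ := δ + θ with hd
  set k : ℝ := κ - θ with hk
  have hk0 : κ / 2 ≤ k := by rw [hk]; linarith
  have hk00 : 0 ≤ k := by linarith
  have hkd : k ≤ d := by rw [hk, hd]; linarith
  have hd1 : d + k ≤ 1 := by rw [hk, hd]; linarith
  have hd1' : d ≤ 1 := by linarith
  have hδ1 : δ ≤ 1 := by linarith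
  have hδ0 : 0 < δ := by linarith
  set f : ℕ → ℝ := fun x => d + k * gg L R S Pa Pb x with hf
  set f' : ℕ → ℝ := fun x => if x < N then f x else 0 with hf'
  set J : Finset ℕ := insert 0 ((Finset.Icc 1 K ×ˢ Finset.Icc 1 (Nat.sqrt N)).image
    (fun t => t.1 * t.2 ^ 2)) with hJ
  have hJcard : (J.card : ℝ) ≤ K * Nat.sqrt N + 1 := by
    have : J.card ≤ K * Nat.sqrt N + 1 := by
      calc J.card ≤ ((Finset.Icc 1 K ×ˢ Finset.Icc 1 (Nat.sqrt N)).image
            (fun t => t.1 * t.2 ^ 2)).card + 1 := Finset.card_insert_le _ _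
        _ ≤ (Finset.Icc 1 K ×ˢ Finset.Icc 1 (Nat.sqrt N)).card + 1 := by
            apply Nat.add_le_add_right Finset.card_image_le
        _ = K * Nat.sqrt N + 1 := by rw [Finset.card_product]; simp
    exact_mod_cast this
  have hf01 : ∀ x, 0 ≤ f x ∧ f x ≤ 1 := by
    intro x
    have h := abs_le.mp (gg_bd H hS x)
    have h1 : k * gg L R S Pa Pb x ≤ k * 1 := mul_le_mul_of_nonneg_left h.2 hk00
    have h2 : k * (-1) ≤ k * gg L R S Pa Pb x := mul_le_mul_of_nonneg_left h.1 hk00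
    simp only [hf]
    constructor <;> linarith
  have hf'01 : ∀ x, 0 ≤ f' x ∧ f' x ≤ 1 := by
    intro x
    simp only [hf']
    split_ifs
    · exact hf01 x
    · norm_num
  have hf'N : ∀ x, N ≤ x → f' x = 0 := by
    intro x hx
    simp only [hf']
    rw [if_neg (by omega)]
  obtain ⟨F, hF, hF01, hFN, hΦ⟩ := rounding N J f' hf'01 hf'N N le_rfl
  have hdev : ∀ h ∈ J, |D N h F - D N h f'| ≤ X := by
    intro h hh
    have h1 : (D N h F - D N h f') ^ 2 ≤ ∑ h ∈ J, (D N h F - D N h f') ^ 2 :=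
      Finset.single_le_sum (f := fun h => (D N h F - D N h f') ^ 2) (fun i _ => sq_nonneg _) hh
    have h2 : (N : ℝ) * J.card ≤ X ^ 2 :=
      (mul_le_mul_of_nonneg_left hJcard hN0.le).trans hX
    exact abs_le_of_sq_le_sq (by linarith) hX0
  set B : Finset ℕ := (range N).filter (fun x => F x = 1) with hB
  set A : Finset ℤ := B.image (fun x : ℕ => (x : ℤ) + 1) with hA
  have hinj : Function.Injective (fun x : ℕ => (x : ℤ) + 1) := by
    intro a b hab
    simpa using hab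
  have hAcard : (A.card : ℝ) = D N 0 F := by
    rw [hA, Finset.card_image_of_injective _ hinj, hB, Finset.card_filter]
    unfold D
    rw [if_pos rfl]
    push_cast
    apply Finset.sum_congr rfl
    intro x hx
    rw [Finset.mem_range] at hx
    rcases hF01 x hx with h | h <;> simp [h]
  have hAsub : A ⊆ Finset.Icc 1 (N : ℤ) := by
    intro z hz
    rw [hA, Finset.mem_image] at hz
    obtain ⟨x, hx, rfl⟩ := hz
    rw [hB, Finset.mem_filter, Finset.mem_range] at hx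
    rw [Finset.mem_Icc]
    constructor
    · linarith [Int.natCast_nonneg x]
    · have : (x : ℤ) < N := by exact_mod_cast hx.1
      linarith
  have hA1 : δ * N ≤ A.card := by
    have h0 : (0 : ℕ) ∈ J := by rw [hJ]; exact Finset.mem_insert_self _ _
    have h1 := (abs_le.mp (hdev 0 h0)).1
    have h2 : D N 0 f' = ∑ x ∈ range N, f x := D_trunc_zero N _
    have h3 : ∑ x ∈ range N, f x = N * d + k * ∑ x ∈ range N, gg L R S Pa Pb x := by
      simp only [hf]
      rw [Finset.sum_add_distrib, ← Finset.mul_sum]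
      simp
    have h4 := (abs_le.mp (gg_lin H hS N)).1
    have h5 : k * (-(R : ℝ) ^ 2) ≤ k * ∑ x ∈ range N, gg L R S Pa Pb x :=
      mul_le_mul_of_nonneg_left h4 hk00
    have h6 : k * (R : ℝ) ^ 2 ≤ 1 * (R : ℝ) ^ 2 :=
      mul_le_mul_of_nonneg_right (by linarith) (by positivity)
    have h7 : (N : ℝ) * d = N * δ + N * θ := by rw [hd]; ring
    rw [hAcard]
    linarith
  have hεpos : 0 < (δ ^ 2 - ε) * N := by
    apply mul_pos _ hN0
    have h1 : κ ^ 2 * rho L R S ≤ κ ^ 2 * 1 := mul_le_mul_of_nonneg_left hrho (by positivity)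
    have h2 : κ ^ 2 ≤ δ ^ 2 := pow_le_pow_left₀ hκ.le hκδ 2
    have h3 : 0 < κ ^ 2 := by positivity
    linarith
  -- the bound for positive multiples
  have key : ∀ y : ℕ, 0 < y → ∀ a : ℕ, 1 ≤ a → a ≤ K →
      ((A.filter (fun x => x + ((a * y ^ 2 : ℕ) : ℤ) ∈ A)).card : ℝ) < (δ ^ 2 - ε) * N := by
    intro y hy a ha1 haK
    set h : ℕ := a * y ^ 2 with hh
    have hsub : A.filter (fun x => x + (h : ℤ) ∈ A) ⊆
        ((range N).filter (fun x => F x = 1 ∧ F (x + h) = 1 ∧ x + h < N)).image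
          (fun x : ℕ => (x : ℤ) + 1) := by
      intro z hz
      rw [Finset.mem_filter, hA, Finset.mem_image] at hz
      obtain ⟨⟨x, hx, rfl⟩, hz2⟩ := hz
      rw [Finset.mem_image] at hz2
      obtain ⟨x', hx', he⟩ := hz2
      rw [hB, Finset.mem_filter, Finset.mem_range] at hx hx'
      have : x' = x + h := by
        have : (x' : ℤ) = x + h := by linarith
        exact_mod_cast this
      subst this
      rw [Finset.mem_image]
      refine ⟨x, ?_, rfl⟩
      rw [Finset.mem_filter, Finset.mem_range]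
      exact ⟨hx.1, hx.2, hx'.2, hx'.1⟩
    have hc1 := (Finset.card_le_card hsub).trans Finset.card_image_le
    have hh0 : h ≠ 0 := by rw [hh]; positivity
    by_cases hyM : h < N
    · have hy2 : y ^ 2 ≤ h := by
        rw [hh]; exact Nat.le_mul_of_pos_left _ (by omega)
      have hysq : y ≤ Nat.sqrt N := by
        rw [Nat.le_sqrt, ← sq]; omega
      have hhJ : h ∈ J := by
        rw [hJ, Finset.mem_insert]
        right
        rw [Finset.mem_image]
        refine ⟨(a, y), ?_, rfl⟩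
        rw [Finset.mem_product, Finset.mem_Icc, Finset.mem_Icc]
        exact ⟨⟨ha1, haK⟩, ⟨hy, hysq⟩⟩
      have hyT : y < L ^ T := by
        have h1 : y ^ 2 < (L ^ T) ^ 2 := by
          rw [← pow_mul, mul_comm T 2]
          omega
        exact lt_of_pow_lt_pow_left₀ 2 (by positivity) h1
      have h1 := (abs_le.mp (hdev h hhJ)).2
      have h2 : D N h f' = ∑ x ∈ range (N - h), f x * f (x + h) :=
        D_trunc N h hh0 hyM.le _
      have h3 := corr_dk H hS a y T (N - h) N ha1 haK hy hyT hT hcond (Nat.sub_le _ _) d k hk00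
        hkd hd1'
      rw [← hh] at h3
      have h3' : ∑ x ∈ range (N - h), f x * f (x + h) ≤
          N * (d ^ 2 - k ^ 2 * rho L R S) + 5 * (R : ℝ) ^ 4 := h3
      have h5 : (((range N).filter (fun x => F x = 1 ∧ F (x + h) = 1 ∧ x + h < N)).card : ℝ) ≤
          D N h F := by
        unfold D
        rw [if_neg hh0, Finset.card_filter]
        push_cast
        apply Finset.sum_le_sum
        intro x _
        split_ifs with hc
        · rw [hc.1, hc.2.1]; norm_num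
        · exact mul_nonneg (hF x).1 (hF (x + h)).1
      have h6 : ((A.filter (fun x => x + (h : ℤ) ∈ A)).card : ℝ) ≤
          (((range N).filter (fun x => F x = 1 ∧ F (x + h) = 1 ∧ x + h < N)).card : ℝ) := by
        exact_mod_cast hc1
      have h7 : (N : ℝ) * d ^ 2 ≤ N * δ ^ 2 + 3 * (N * θ) := by
        have e1 : d ^ 2 = δ ^ 2 + 2 * δ * θ + θ * θ := by rw [hd]; ring
        have e2 : 2 * δ * θ ≤ 2 * 1 * θ :=
          mul_le_mul_of_nonneg_right (by linarith) hθ0.le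
        have e3 : θ * θ ≤ 1 * θ := mul_le_mul_of_nonneg_right (by linarith) hθ0.le
        have e4 : d ^ 2 ≤ δ ^ 2 + 3 * θ := by linarith
        calc (N : ℝ) * d ^ 2 ≤ N * (δ ^ 2 + 3 * θ) := mul_le_mul_of_nonneg_left e4 hN0.le
          _ = _ := by ring
      have h8 : (N : ℝ) * (κ ^ 2 * rho L R S / 4) ≤ N * (k ^ 2 * rho L R S) := by
        apply mul_le_mul_of_nonneg_left _ hN0.le
        have e1 : (κ / 2) ^ 2 ≤ k ^ 2 := pow_le_pow_left₀ (by linarith) hk0 2
        have e2 := mul_le_mul_of_nonneg_right e1 hrho0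
        calc κ ^ 2 * rho L R S / 4 = (κ / 2) ^ 2 * rho L R S := by ring
          _ ≤ _ := e2
      have h9 : (N : ℝ) * ε ≤ N * (κ ^ 2 * rho L R S / 8) := mul_le_mul_of_nonneg_left hε hN0.le
      have h10 : (N : ℝ) * (d ^ 2 - k ^ 2 * rho L R S) = N * d ^ 2 - N * (k ^ 2 * rho L R S) := by
        ring
      have h11 : (N : ℝ) * (κ ^ 2 * rho L R S / 4) = 2 * (N * (κ ^ 2 * rho L R S / 8)) := by ring
      have h12 : (δ ^ 2 - ε) * N = N * δ ^ 2 - N * ε := by ring
      rw [h12]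
      linarith
    · have hempty : (range N).filter (fun x => F x = 1 ∧ F (x + h) = 1 ∧ x + h < N) = ∅ := by
        apply Finset.filter_eq_empty_iff.mpr
        intro x _ hc
        omega
      rw [hempty, Finset.card_empty] at hc1
      have h6 : ((A.filter (fun x => x + (h : ℤ) ∈ A)).card : ℝ) ≤ 0 := by exact_mod_cast hc1
      linarith
  refine ⟨A, hAsub, hA1, ?_⟩
  intro y hy a ha haK
  have hy' : 0 < y.natAbs := Int.natAbs_pos.mpr hy
  have ha' : 1 ≤ a.natAbs := Int.natAbs_pos.mpr ha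
  have haK' : a.natAbs ≤ K := by
    have : (a.natAbs : ℤ) ≤ K := by rw [Int.natCast_natAbs]; exact haK
    exact_mod_cast this
  have hk1 := key y.natAbs hy' a.natAbs ha' haK'
  have e1 : ((a.natAbs * y.natAbs ^ 2 : ℕ) : ℤ) = |a| * y ^ 2 := by
    push_cast
    rw [sq_abs]
  rw [e1] at hk1
  rcases abs_cases a with ⟨h, _⟩ | ⟨h, _⟩
  · rw [h] at hk1
    exact hk1
  · rw [h] at hk1
    have e2 := count_neg A (-a * y ^ 2)
    have e3 : -(-a * y ^ 2) = a * y ^ 2 := by ring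
    rw [e3] at e2
    have e4 : ((A.filter (fun x => x + a * y ^ 2 ∈ A)).card : ℝ) ≤
        ((A.filter (fun x => x + -a * y ^ 2 ∈ A)).card : ℝ) := by exact_mod_cast e2
    linarith

end

end Pool.Agent.Y416.FS
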