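import Pool.Agent.Helper235.Count

/-!
# Popular square differences: the building blocks with general parameters

We use the local functions `G L p q` of `Pool.Agent.Helper235` for primes in `(L, R]`, and we treat
the shifts `a y ^ 2` for all `1 ≤ a ≤ K` at the same time.
-/

open Finset Pool.Agent.Helper235.Chars Pool.Agent.Helper235.Round

namespace Pool.Agent.Y416.FS

/-- The hypotheses on the two finite sets of primes. -/
structure Dat (L R S K : ℕ) (Pa Pb : Finset ℕ) : Prop where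
  hL : 2 ≤ L
  hLR : L ≤ R
  hKL : K ≤ L
  ha : ∀ p ∈ Pa, p.Prime ∧ L < p ∧ p ≤ R
  hb : ∀ p ∈ Pb, p.Prime ∧ L < p ∧ p ≤ R
  hd : Disjoint Pa Pb
  ca : Pa.card = S
  cb : Pb.card = S
  h4 : ∀ p ∈ Pa, ∀ q ∈ Pb, p % 4 = q % 4
  hch : ∀ p ∈ Pa, ∀ q ∈ Pb, ∀ a : ℕ, 1 ≤ a → a ≤ K → ch p a = ch q a

lemma ch_mul (p a b : ℕ) : ch p (a * b) = ch p a * ch p b := by
  unfold ch
  push_cast
  rw [jacobiSym.mul_left]
  push_cast
  rfl

lemma ch_sq_one (p a : ℕ) (hp : p.Prime) (h : ¬ p ∣ a) : ch p a * ch p a = 1 := by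
  haveI := Fact.mk hp
  have h1 : jacobiSym (a : ℤ) p ^ 2 = 1 := by
    apply jacobiSym.sq_one
    rw [Int.gcd_natCast_natCast]
    exact ((Nat.Prime.coprime_iff_not_dvd hp).mpr h).symm
  unfold ch
  rw [← sq]
  exact_mod_cast h1

lemma rr_mul_sq (p a y : ℕ) (hp : p.Prime) (h : ¬ p ∣ a) : rr p (a * y ^ 2) = rr p (y ^ 2) := by
  unfold rr
  have : p ∣ a * y ^ 2 ↔ p ∣ y ^ 2 :=
    ⟨fun hd => (hp.dvd_mul.mp hd).resolve_left h, fun hd => hd.mul_left a⟩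
  simp only [this]

lemma G_diag_le' (L : ℝ) (p q a : ℕ) (hp : p.Prime) (hq : q.Prime) (hpq : p ≠ q) (hp2 : p ≠ 2)
    (hq2 : q ≠ 2) (hm : p % 4 = q % 4) (hL : 0 ≤ L) (hLp : L ≤ p) (hLq : L ≤ q)
    (hpa : ¬ p ∣ a) (hqa : ¬ q ∣ a) (hc : ch p a = ch q a) (y : ℕ) :
    ∑ x ∈ range (p * q), G L p q x * G L p q (x + a * y ^ 2) ≤
      ((p * q : ℕ) : ℝ) * mq L p q y := by
  have h0 := G_diag_le L p q hp hq hpq hp2 hq2 hm hL hLp hLq y
  haveI := Fact.mk hp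
  haveI := Fact.mk hq
  rw [G_diag p q L hpq hp2 hq2 (cz_neg_one p q hp2 hq2 hm)] at h0 ⊢
  rw [rr_mul_sq p a y hp hpa, rr_mul_sq q a y hq hqa, ch_mul, ch_mul]
  have e : ch p a * ch p (y ^ 2) * (ch q a * ch q (y ^ 2)) = ch p (y ^ 2) * ch q (y ^ 2) := by
    rw [hc]
    have := ch_sq_one q a hq hqa
    calc _ = (ch q a * ch q a) * (ch p (y ^ 2) * ch q (y ^ 2)) := by ring
      _ = _ := by rw [this, one_mul]
  rw [e]
  exact h0

section
variable {L R S K : ℕ} {Pa Pb : Finset ℕ}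

lemma mul_le_R2 {p q : ℕ} (hp : p ≤ R) (hq : q ≤ R) : (p : ℝ) * q ≤ (R : ℝ) ^ 2 := by
  have : p * q ≤ R * R := Nat.mul_le_mul hp hq
  calc (p : ℝ) * q = ((p * q : ℕ) : ℝ) := by push_cast; ring
    _ ≤ ((R * R : ℕ) : ℝ) := by exact_mod_cast this
    _ = (R : ℝ) ^ 2 := by push_cast; ring

lemma G_bdR {p q : ℕ} (hp : p.Prime) (hq : q.Prime) (hp1 : L < p)
    (hp2 : p ≤ R) (hq2 : q ≤ R) (x : ℕ) : |G L p q x| ≤ 2 * (R : ℝ) ^ 2 := by
  have h1 : (L : ℝ) ≤ p * q := by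
    have : L ≤ p * q := le_trans hp1.le (Nat.le_mul_of_pos_right p hq.pos)
    exact_mod_cast this
  have := rz_bound_G p q hp hq L (by positivity) h1 x
  have h2 := mul_le_R2 hp2 hq2
  linarith

lemma card_QR (H : Dat L R S K Pa Pb) : ((Pa ×ˢ Pb).card : ℝ) = (S : ℝ) ^ 2 := by
  rw [Finset.card_product, H.ca, H.cb]
  push_cast
  ring

lemma card_leR (H : Dat L R S K Pa Pb) : S ≤ R := by
  have : Pa ⊆ Finset.Ioc 0 R := by
    intro p hp
    rw [Finset.mem_Ioc]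
    exact ⟨(H.ha p hp).1.pos, (H.ha p hp).2.2⟩
  have := Finset.card_le_card this
  rw [H.ca] at this
  simpa using this

/-- `|Fz| ≤ 2 S² R²` -/
lemma Fz_bdR (H : Dat L R S K Pa Pb) (x : ℕ) :
    |Fz L Pa Pb x| ≤ (S : ℝ) ^ 2 * (2 * (R : ℝ) ^ 2) := by
  unfold Fz
  calc |∑ t ∈ Pa ×ˢ Pb, G L t.1 t.2 x| ≤ ∑ t ∈ Pa ×ˢ Pb, |G L t.1 t.2 x| :=
        Finset.abs_sum_le_sum_abs _ _
    _ ≤ ∑ t ∈ Pa ×ˢ Pb, 2 * (R : ℝ) ^ 2 := by
        apply Finset.sum_le_sum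
        intro t ht
        rw [Finset.mem_product] at ht
        obtain ⟨h1, h2, h3⟩ := H.ha _ ht.1
        obtain ⟨k1, k2, k3⟩ := H.hb _ ht.2
        exact G_bdR h1 k1 h2 h3 k3 x
    _ = ((Pa ×ˢ Pb).card : ℝ) * (2 * (R : ℝ) ^ 2) := by simp
    _ = _ := by rw [card_QR H]

/-- linear sums are small -/
lemma lin_bdR (H : Dat L R S K Pa Pb) (n : ℕ) :
    |∑ x ∈ range n, Fz L Pa Pb x| ≤ (S : ℝ) ^ 2 * (2 * (R : ℝ) ^ 4) := by
  have hL2 := H.hL
  unfold Fz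
  rw [Finset.sum_comm]
  calc |∑ t ∈ Pa ×ˢ Pb, ∑ x ∈ range n, G L t.1 t.2 x|
      ≤ ∑ t ∈ Pa ×ˢ Pb, |∑ x ∈ range n, G L t.1 t.2 x| := Finset.abs_sum_le_sum_abs _ _
    _ ≤ ∑ t ∈ Pa ×ˢ Pb, 2 * (R : ℝ) ^ 4 := by
        apply Finset.sum_le_sum
        rintro ⟨p, q⟩ ht
        rw [Finset.mem_product] at ht
        obtain ⟨h1, h2, h3⟩ := H.ha _ ht.1
        obtain ⟨k1, k2, k3⟩ := H.hb _ ht.2
        simp only at h1 h2 h3 k1 k2 k3 ht ⊢
        have hpq : p ≠ q := by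
          rintro rfl
          exact Finset.disjoint_left.mp H.hd ht.1 ht.2
        have hco : Nat.Coprime p (q * 1) := by
          rw [mul_one]; exact (Nat.coprime_primes h1 k1).mpr hpq
        have hz := G_zero L p q 1 h1 (by omega) k1.pos one_pos hco (fun _ => 1) (fun _ => rfl)
        simp only [mul_one] at hz
        have := incomplete (p * q) (Nat.mul_pos h1.pos k1.pos) (G L p q) (per_G L p q) hz
          (2 * (R : ℝ) ^ 2) (fun x => G_bdR h1 k1 h2 h3 k3 x) n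
        have h4 := mul_le_R2 h3 k3
        push_cast at this
        calc _ ≤ (p : ℝ) * q * (2 * (R : ℝ) ^ 2) := this
          _ ≤ (R : ℝ) ^ 2 * (2 * (R : ℝ) ^ 2) := mul_le_mul_of_nonneg_right h4 (by positivity)
          _ = 2 * (R : ℝ) ^ 4 := by ring
    _ = ((Pa ×ˢ Pb).card : ℝ) * (2 * (R : ℝ) ^ 4) := by simp
    _ = _ := by rw [card_QR H]

lemma cross_bdR {p q p' q' : ℕ} (hL : 2 ≤ L) (hp : p.Prime) (hq : q.Prime) (hp' : p'.Prime)
    (hq' : q'.Prime) (a1 : L < p) (a2 : L < p') (b1 : p ≤ R) (b2 : q ≤ R)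
    (b3 : p' ≤ R) (b4 : q' ≤ R) (c1 : p ≠ q) (c2 : p ≠ p') (c3 : p ≠ q') (h n : ℕ) :
    ∑ x ∈ range n, G L p q x * G L p' q' (x + h) ≤ 4 * (R : ℝ) ^ 8 := by
  have hco : Nat.Coprime p (q * (p' * q')) := by
    apply Nat.Coprime.mul_right
    · exact (Nat.coprime_primes hp hq).mpr c1
    · apply Nat.Coprime.mul_right
      · exact (Nat.coprime_primes hp hp').mpr c2
      · exact (Nat.coprime_primes hp hq').mpr c3
  have hz := G_zero L p q (p' * q') hp (by omega) hq.pos (Nat.mul_pos hp'.pos hq'.pos) hco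
    (fun x => G L p' q' (x + h)) ((per_G L p' q').shift h)
  have hper : Per (p * (q * (p' * q'))) (fun x => G L p q x * G L p' q' (x + h)) := by
    apply Per.mul
    · exact (per_G L p q).of_dvd (by rw [← mul_assoc]; exact dvd_mul_right _ _)
    · exact ((per_G L p' q').shift h).of_dvd (by rw [← mul_assoc]; exact dvd_mul_left _ _)
  have hb : ∀ x, |G L p q x * G L p' q' (x + h)| ≤ (2 * (R : ℝ) ^ 2) * (2 * (R : ℝ) ^ 2) := by
    intro x
    rw [abs_mul]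
    exact mul_le_mul (G_bdR hp hq a1 b1 b2 x) (G_bdR hp' hq' a2 b3 b4 _) (abs_nonneg _)
      (by positivity)
  have := incomplete (p * (q * (p' * q')))
    (Nat.mul_pos hp.pos (Nat.mul_pos hq.pos (Nat.mul_pos hp'.pos hq'.pos))) _ hper hz _ hb n
  have h1 := mul_le_R2 b1 b2
  have h2 := mul_le_R2 b3 b4
  have h3 : ((p * (q * (p' * q')) : ℕ) : ℝ) ≤ (R : ℝ) ^ 2 * (R : ℝ) ^ 2 := by
    push_cast
    calc (p : ℝ) * (q * (p' * q')) = (p * q) * (p' * q') := by ring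
      _ ≤ _ := mul_le_mul h1 h2 (by positivity) (by positivity)
  calc _ ≤ |∑ x ∈ range n, G L p q x * G L p' q' (x + h)| := le_abs_self _
    _ ≤ _ := this
    _ ≤ ((R : ℝ) ^ 2 * (R : ℝ) ^ 2) * ((2 * (R : ℝ) ^ 2) * (2 * (R : ℝ) ^ 2)) :=
        mul_le_mul_of_nonneg_right h3 (by positivity)
    _ = 4 * (R : ℝ) ^ 8 := by ring

lemma diag_bdR {p q a : ℕ} (hL : 2 ≤ L) (hp : p.Prime) (hq : q.Prime)
    (a1 : L < p) (a2 : L < q) (b1 : p ≤ R) (b2 : q ≤ R) (c1 : p ≠ q)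
    (hm : p % 4 = q % 4) (hpa : ¬ p ∣ a) (hqa : ¬ q ∣ a) (hc : ch p a = ch q a) (y n : ℕ) :
    ∑ x ∈ range n, G L p q x * G L p q (x + a * y ^ 2) ≤ n * mq L p q y + 8 * (R : ℝ) ^ 6 := by
  have hle := G_diag_le' L p q a hp hq c1 (by omega) (by omega) hm (by positivity)
    (by exact_mod_cast a1.le) (by exact_mod_cast a2.le) hpa hqa hc y
  have hT : 0 < p * q := Nat.mul_pos hp.pos hq.pos
  have hT' : (0 : ℝ) < ((p * q : ℕ) : ℝ) := by exact_mod_cast hT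
  set W : ℝ := (∑ x ∈ range (p * q), G L p q x * G L p q (x + a * y ^ 2)) / ((p * q : ℕ) : ℝ)
    with hW
  have hWle : W ≤ mq L p q y := by
    rw [hW, div_le_iff₀ hT']; linarith
  have hb : ∀ x, |G L p q x * G L p q (x + a * y ^ 2)| ≤
      (2 * (R : ℝ) ^ 2) * (2 * (R : ℝ) ^ 2) := by
    intro x
    rw [abs_mul]
    exact mul_le_mul (G_bdR hp hq a1 b1 b2 x) (G_bdR hp hq a1 b1 b2 _) (abs_nonneg _)
      (by positivity)
  have := incomplete_mean (p * q) hT (fun x => G L p q x * G L p q (x + a * y ^ 2))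
    ((per_G L p q).mul ((per_G L p q).shift _)) W (by rw [hW]; field_simp) _ hb n
  have h1 := mul_le_R2 b1 b2
  calc _ ≤ _ := this
    _ ≤ n * mq L p q y + (R : ℝ) ^ 2 * (2 * ((2 * (R : ℝ) ^ 2) * (2 * (R : ℝ) ^ 2))) := by
        apply add_le_add
        · exact mul_le_mul_of_nonneg_left hWle (by positivity)
        · apply mul_le_mul_of_nonneg_right _ (by positivity)
          push_cast; exact h1
    _ = _ := by ring

/-- the quadratic sums -/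
lemma quad_bdR (H : Dat L R S K Pa Pb) (a y n : ℕ) (ha1 : 1 ≤ a) (haK : a ≤ K) :
    ∑ x ∈ range n, Fz L Pa Pb x * Fz L Pa Pb (x + a * y ^ 2) ≤
      n * (∑ t ∈ Pa ×ˢ Pb, mq L t.1 t.2 y) + (S : ℝ) ^ 4 * (8 * (R : ℝ) ^ 8) := by
  have hR1 : (1 : ℝ) ≤ R := by exact_mod_cast (by have := H.hL; have := H.hLR; omega : 1 ≤ R)
  have e : ∑ x ∈ range n, Fz L Pa Pb x * Fz L Pa Pb (x + a * y ^ 2) =
      ∑ s ∈ Pa ×ˢ Pb, ∑ t ∈ Pa ×ˢ Pb, ∑ x ∈ range n,
        G L s.1 s.2 x * G L t.1 t.2 (x + a * y ^ 2) := by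
    unfold Fz
    simp_rw [Finset.sum_mul_sum]
    rw [Finset.sum_comm]
    apply Finset.sum_congr rfl
    intro s _
    rw [Finset.sum_comm]
  rw [e]
  have key : ∀ s ∈ Pa ×ˢ Pb, ∀ t ∈ Pa ×ˢ Pb,
      ∑ x ∈ range n, G L s.1 s.2 x * G L t.1 t.2 (x + a * y ^ 2) ≤
        (if s = t then n * mq L s.1 s.2 y else 0) + 8 * (R : ℝ) ^ 8 := by
    rintro ⟨p, q⟩ hs ⟨p', q'⟩ ht
    rw [Finset.mem_product] at hs ht
    simp only at hs ht ⊢
    obtain ⟨h1, h2, h3⟩ := H.ha _ hs.1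
    obtain ⟨k1, k2, k3⟩ := H.hb _ hs.2
    obtain ⟨h1', h2', h3'⟩ := H.ha _ ht.1
    obtain ⟨k1', k2', k3'⟩ := H.hb _ ht.2
    have dis : ∀ a, a ∈ Pa → a ∉ Pb := fun a h => Finset.disjoint_left.mp H.hd h
    have n1 : p ≠ q := by rintro rfl; exact dis _ hs.1 hs.2
    have n2 : p ≠ q' := by rintro rfl; exact dis _ hs.1 ht.2
    have n3 : q ≠ p' := by rintro rfl; exact dis _ ht.1 hs.2
    by_cases hst : (p, q) = (p', q')
    · rw [if_pos hst]
      rw [Prod.mk.injEq] at hst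
      obtain ⟨rfl, rfl⟩ := hst
      have hpa : ¬ p ∣ a := by
        intro hd
        have := Nat.le_of_dvd (by omega) hd
        have := H.hKL
        omega
      have hqa : ¬ q ∣ a := by
        intro hd
        have := Nat.le_of_dvd (by omega) hd
        have := H.hKL
        omega
      have := diag_bdR H.hL h1 k1 h2 k2 h3 k3 n1 (H.h4 _ hs.1 _ hs.2) hpa hqa
        (H.hch _ hs.1 _ hs.2 a ha1 haK) y n
      have hp : (R : ℝ) ^ 6 ≤ (R : ℝ) ^ 8 := pow_le_pow_right₀ hR1 (by norm_num)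
      linarith
    · rw [if_neg hst]
      have hpos : (0 : ℝ) ≤ (R : ℝ) ^ 8 := by positivity
      by_cases hpp : p = p'
      · have hqq : q ≠ q' := by
          rintro rfl; exact hst (by rw [hpp])
        have := cross_bdR (L := L) (p := q) (q := p) (p' := p') (q' := q') H.hL k1 h1 h1' k1' k2
          h2' k3 h3 h3' k3' n1.symm n3 hqq (a * y ^ 2) n
        simp_rw [G_symm L q p] at this
        linarith
      · have := cross_bdR (L := L) (p := p) (q := q) (p' := p') (q' := q') H.hL h1 k1 h1' k1' h2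
          h2' h3 k3 h3' k3' n1 hpp n2 (a * y ^ 2) n
        linarith
  calc _ ≤ ∑ s ∈ Pa ×ˢ Pb, ∑ t ∈ Pa ×ˢ Pb,
        ((if s = t then n * mq L s.1 s.2 y else 0) + 8 * (R : ℝ) ^ 8) :=
        Finset.sum_le_sum (fun s hs => Finset.sum_le_sum (fun t ht => key s hs t ht))
    _ = n * (∑ t ∈ Pa ×ˢ Pb, mq L t.1 t.2 y) +
        ((Pa ×ˢ Pb).card : ℝ) * (((Pa ×ˢ Pb).card : ℝ) * (8 * (R : ℝ) ^ 8)) := by
        simp_rw [Finset.sum_add_distrib, Finset.sum_ite_eq, Finset.sum_const, nsmul_eq_mul]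
        rw [Finset.mul_sum]
        congr 1
        apply Finset.sum_congr rfl
        intro s hs
        rw [if_pos hs]
    _ = _ := by rw [card_QR H]; ring

/-- the main term is negative for every `y` with few large prime factors -/
lemma sum_mqR (H : Dat L R S K Pa Pb) (y T : ℕ) (hy : 0 < y) (hyT : y < L ^ T)
    (hT : 2 * T ≤ S) (hcond : 16 * (R : ℝ) ^ 2 * (T : ℝ) ^ 2 ≤ L * (S : ℝ) ^ 2) :
    ∑ t ∈ Pa ×ˢ Pb, mq L t.1 t.2 y ≤ -((L : ℝ) * (S : ℝ) ^ 2 / 8) := by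
  have hL2 : (2 : ℝ) ≤ L := by exact_mod_cast H.hL
  have ka := card_div_lt (S := Pa) (fun p hp => ⟨(H.ha p hp).1, (H.ha p hp).2.1⟩) y T hy hyT
  have kb := card_div_lt (S := Pb) (fun p hp => ⟨(H.hb p hp).1, (H.hb p hp).2.1⟩) y T hy hyT
  have ea := Finset.card_filter_add_card_filter_not (s := Pa) (fun p => p ∣ y)
  have eb := Finset.card_filter_add_card_filter_not (s := Pb) (fun p => p ∣ y)
  rw [H.ca] at ea
  rw [H.cb] at eb
  have main : ∑ t ∈ Pa ×ˢ Pb, mq L t.1 t.2 y ≤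
      2 * (R : ℝ) ^ 2 * (((Pa.filter (fun p => p ∣ y)).card : ℝ) *
        ((Pb.filter (fun p => p ∣ y)).card : ℝ))
      - (2 * L - 2) * (((Pa.filter (fun p => ¬ p ∣ y)).card : ℝ) *
        ((Pb.filter (fun p => ¬ p ∣ y)).card : ℝ)) := by
    have e1 : ∀ P : Finset ℕ, ((P.filter (fun p => p ∣ y)).card : ℝ) =
        ∑ p ∈ P, (if p ∣ y then (1 : ℝ) else 0) := by
      intro P; simp
    have e2 : ∀ P : Finset ℕ, ((P.filter (fun p => ¬ p ∣ y)).card : ℝ) =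
        ∑ p ∈ P, (if p ∣ y then (0 : ℝ) else 1) := by
      intro P
      rw [Finset.card_filter]
      push_cast
      apply Finset.sum_congr rfl
      intro p _
      by_cases h : p ∣ y <;> simp [h]
    rw [e1, e1, e2, e2, Finset.sum_mul_sum, Finset.sum_mul_sum, ← Finset.sum_product',
      ← Finset.sum_product', Finset.mul_sum, Finset.mul_sum, ← Finset.sum_sub_distrib]
    apply Finset.sum_le_sum
    rintro ⟨p, q⟩ ht
    rw [Finset.mem_product] at ht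
    obtain ⟨_, _, h3⟩ := H.ha _ ht.1
    obtain ⟨_, _, k3⟩ := H.hb _ ht.2
    simp only at h3 k3 ⊢
    have := mul_le_R2 h3 k3
    unfold mq
    by_cases c1 : p ∣ y <;> by_cases c2 : q ∣ y <;> simp only [c1, c2, if_true, if_false] <;>
      linarith
  have la : S ≤ 2 * (Pa.filter (fun p => ¬ p ∣ y)).card := by omega
  have lb : S ≤ 2 * (Pb.filter (fun p => ¬ p ∣ y)).card := by omega
  have ka' : ((Pa.filter (fun p => p ∣ y)).card : ℝ) ≤ T := by exact_mod_cast ka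
  have kb' : ((Pb.filter (fun p => p ∣ y)).card : ℝ) ≤ T := by exact_mod_cast kb
  have la' : (S : ℝ) / 2 ≤ ((Pa.filter (fun p => ¬ p ∣ y)).card : ℝ) := by
    have : (S : ℝ) ≤ 2 * ((Pa.filter (fun p => ¬ p ∣ y)).card : ℝ) := by exact_mod_cast la
    linarith
  have lb' : (S : ℝ) / 2 ≤ ((Pb.filter (fun p => ¬ p ∣ y)).card : ℝ) := by
    have : (S : ℝ) ≤ 2 * ((Pb.filter (fun p => ¬ p ∣ y)).card : ℝ) := by exact_mod_cast lb
    linarith
  have m1 : ((Pa.filter (fun p => p ∣ y)).card : ℝ) * ((Pb.filter (fun p => p ∣ y)).card : ℝ)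
      ≤ (T : ℝ) ^ 2 := by
    rw [sq]; exact mul_le_mul ka' kb' (by positivity) (by positivity)
  have m2 : (S : ℝ) ^ 2 / 4 ≤ ((Pa.filter (fun p => ¬ p ∣ y)).card : ℝ) *
      ((Pb.filter (fun p => ¬ p ∣ y)).card : ℝ) := by
    calc (S : ℝ) ^ 2 / 4 = (S : ℝ) / 2 * ((S : ℝ) / 2) := by ring
      _ ≤ _ := mul_le_mul la' lb' (by positivity) (by positivity)
  have m3 := mul_le_mul_of_nonneg_left m1 (by positivity : (0 : ℝ) ≤ 2 * (R : ℝ) ^ 2)
  have m4 := mul_le_mul_of_nonneg_left m2 (by linarith : (0 : ℝ) ≤ 2 * (L : ℝ) - 2)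
  have m5 : (L : ℝ) * ((S : ℝ) ^ 2 / 4) ≤ (2 * L - 2) * ((S : ℝ) ^ 2 / 4) :=
    mul_le_mul_of_nonneg_right (by linarith) (by positivity)
  nlinarith

/-- the normalised function with values in `[-1, 1]` -/
noncomputable def gg (L R S : ℕ) (Pa Pb : Finset ℕ) (x : ℕ) : ℝ :=
  Fz L Pa Pb x / ((S : ℝ) ^ 2 * (2 * (R : ℝ) ^ 2))

lemma gg_bd (H : Dat L R S K Pa Pb) (hS : 1 ≤ S) (x : ℕ) : |gg L R S Pa Pb x| ≤ 1 := by
  have hR : (0 : ℝ) < R := by exact_mod_cast (by have := H.hL; have := H.hLR; omega : 0 < R)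
  have hS' : (0 : ℝ) < S := by exact_mod_cast hS
  unfold gg
  rw [abs_div, abs_of_pos (by positivity : (0 : ℝ) < (S : ℝ) ^ 2 * (2 * (R : ℝ) ^ 2)),
    div_le_one (by positivity)]
  exact Fz_bdR H x

lemma gg_lin (H : Dat L R S K Pa Pb) (hS : 1 ≤ S) (n : ℕ) :
    |∑ x ∈ range n, gg L R S Pa Pb x| ≤ (R : ℝ) ^ 2 := by
  have hR : (0 : ℝ) < R := by exact_mod_cast (by have := H.hL; have := H.hLR; omega : 0 < R)
  have hS' : (0 : ℝ) < S := by exact_mod_cast hS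
  unfold gg
  rw [← Finset.sum_div, abs_div,
    abs_of_pos (by positivity : (0 : ℝ) < (S : ℝ) ^ 2 * (2 * (R : ℝ) ^ 2)),
    div_le_iff₀ (by positivity)]
  calc _ ≤ _ := lin_bdR H n
    _ = _ := by ring

lemma gg_lin_shift (H : Dat L R S K Pa Pb) (hS : 1 ≤ S) (n h : ℕ) :
    |∑ x ∈ range n, gg L R S Pa Pb (x + h)| ≤ 2 * (R : ℝ) ^ 2 := by
  have e1 := Finset.sum_range_add (gg L R S Pa Pb) h n
  have e2 := abs_le.mp (gg_lin H hS (h + n))
  have e3 := abs_le.mp (gg_lin H hS h)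
  have e4 : ∑ x ∈ range n, gg L R S Pa Pb (x + h) = ∑ x ∈ range n, gg L R S Pa Pb (h + x) :=
    Finset.sum_congr rfl (fun x _ => by rw [add_comm])
  rw [e4, abs_le]
  constructor <;> linarith [e2.1, e2.2, e3.1, e3.2]

/-- the saving -/
noncomputable def rho (L R S : ℕ) : ℝ := (L : ℝ) / (32 * (S : ℝ) ^ 2 * (R : ℝ) ^ 4)

lemma gg_corr (H : Dat L R S K Pa Pb) (hS : 1 ≤ S) (a y T n : ℕ) (ha1 : 1 ≤ a) (haK : a ≤ K)
    (hy : 0 < y) (hyT : y < L ^ T)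
    (hT : 2 * T ≤ S) (hcond : 16 * (R : ℝ) ^ 2 * (T : ℝ) ^ 2 ≤ L * (S : ℝ) ^ 2) :
    ∑ x ∈ range n, gg L R S Pa Pb x * gg L R S Pa Pb (x + a * y ^ 2) ≤
      -(n * rho L R S) + 2 * (R : ℝ) ^ 4 := by
  have hR : (0 : ℝ) < R := by exact_mod_cast (by have := H.hL; have := H.hLR; omega : 0 < R)
  have hS' : (0 : ℝ) < S := by exact_mod_cast hS
  have h1 := quad_bdR H a y n ha1 haK
  have h2 := sum_mqR H y T hy hyT hT hcond
  have h3 : (n : ℝ) * (∑ t ∈ Pa ×ˢ Pb, mq L t.1 t.2 y) ≤ n * (-((L : ℝ) * (S : ℝ) ^ 2 / 8)) :=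
    mul_le_mul_of_nonneg_left h2 (by positivity)
  have e : ∑ x ∈ range n, gg L R S Pa Pb x * gg L R S Pa Pb (x + a * y ^ 2) =
      (∑ x ∈ range n, Fz L Pa Pb x * Fz L Pa Pb (x + a * y ^ 2)) /
        ((S : ℝ) ^ 2 * (2 * (R : ℝ) ^ 2)) ^ 2 := by
    rw [Finset.sum_div]
    apply Finset.sum_congr rfl
    intro x _
    unfold gg
    field_simp
  rw [e, div_le_iff₀ (by positivity)]
  unfold rho
  calc _ ≤ n * (-((L : ℝ) * (S : ℝ) ^ 2 / 8)) + (S : ℝ) ^ 4 * (8 * (R : ℝ) ^ 8) := by linarith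
    _ = _ := by field_simp; ring

end

end Pool.Agent.Y416.FS
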