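import Pool.Agent.Y416.FS.Par

/-!
# Popular square differences: all densities and all scales
-/

open Finset Pool.Agent.Helper235.Chars Pool.Agent.Helper235.Round

namespace Pool.Agent.Y416.FS

/-- powers of the logarithm are small -/
lemma log_pow_le (q : ℝ) (hq : 0 < q) (N : ℝ) (hN : 1 ≤ N) :
    (Real.log N) ^ q ≤ (36 * q) ^ q * N ^ (1 / 36 : ℝ) := by
  have hs : (0 : ℝ) < 1 / (36 * q) := by positivity
  have h1 := Real.log_le_rpow_div (show (0 : ℝ) ≤ N by linarith) hs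
  have h2 : Real.log N ≤ (36 * q) * N ^ (1 / (36 * q)) := by
    calc Real.log N ≤ N ^ (1 / (36 * q)) / (1 / (36 * q)) := h1
      _ = _ := by field_simp
  calc (Real.log N) ^ q ≤ ((36 * q) * N ^ (1 / (36 * q))) ^ q :=
        Real.rpow_le_rpow (Real.log_nonneg hN) h2 hq.le
    _ = (36 * q) ^ q * (N ^ (1 / (36 * q))) ^ q :=
        Real.mul_rpow (by positivity) (by positivity)
    _ = _ := by
        rw [← Real.rpow_mul (by linarith : (0 : ℝ) ≤ N)]
        congr 2
        field_simp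

/-- The main estimate: for all densities `δ` and all scales `N` in the stated range there is a set
without popular differences of the form `a y ^ 2`. -/
theorem main_est (c : ℝ) (hc0 : 0 < c) (hc : c < 1 / 10) : ∃ C : ℝ, 1 ≤ C ∧
    ∀ ε δ κ : ℝ, 0 < ε → 0 < κ → κ ≤ δ → κ ≤ 1 - δ → ∀ N : ℕ, C ≤ κ ^ 9 * N →
      (N : ℝ) ≤ Real.exp ((κ ^ 2 / (C * ε)) ^ c) →
      ∃ K : ℕ, 1 + Real.log (Real.log N) / C ≤ K ∧ NoPop ε δ N K := by
  -- the degree
  obtain ⟨b, hb⟩ := exists_nat_gt (43 * c / (1 - 10 * c))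
  have hc1 : 0 < 1 - 10 * c := by linarith
  have hb0 : (0 : ℝ) < b := lt_of_le_of_lt (by positivity) hb
  have hb1 : 1 ≤ b := by
    rcases Nat.eq_zero_or_pos b with h | h
    · rw [h] at hb0; simp at hb0
    · exact h
  have hb1' : (1 : ℝ) ≤ b := by exact_mod_cast hb1
  set q : ℝ := 10 + 43 / b with hq
  have hq0 : 0 < q := by rw [hq]; positivity
  have hcq : c * q ≤ 1 := by
    rw [div_lt_iff₀ hc1] at hb
    have : c * q = 10 * c + 43 * c / b := by rw [hq]; ring
    rw [this]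
    have h2 : 43 * c / b ≤ 1 - 10 * c := by
      rw [div_le_iff₀ hb0]; linarith
    linarith
  set m₀ : ℕ := 10 * (2 * b + 9) with hm₀
  have hm₀110 : (110 : ℝ) ≤ m₀ := by
    rw [hm₀]; push_cast; linarith
  set M : ℝ := (2 * (m₀ : ℝ)) ^ (10 * b + 43) with hM
  have hM1 : 1 ≤ M := one_le_pow₀ (by linarith)
  set B : ℝ := 4096 * M * (36 * q) ^ q + b + 3 with hB
  have hqq0 : 0 < (36 * q) ^ q := by positivity
  have hqq : 1 ≤ (36 * q) ^ q := by
    apply Real.one_le_rpow _ hq0.le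
    have : 10 ≤ q := by
      rw [hq]
      have : 0 ≤ 43 / (b : ℝ) := by positivity
      linarith
    linarith
  have hMqq : M ≤ M * (36 * q) ^ q := le_mul_of_one_le_right (by linarith) hqq
  have hB1 : 1 ≤ B := by
    have : 0 < 4096 * M * (36 * q) ^ q := by positivity
    rw [hB]; linarith
  set C : ℝ := B ^ 5 with hC
  have hCB : B ≤ C := by
    calc B = B ^ 1 := (pow_one B).symm
      _ ≤ B ^ 5 := pow_le_pow_right₀ hB1 (by norm_num)
  have hC1 : 1 ≤ C := le_trans hB1 hCB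
  have hC3 : 3 ≤ C := by
    have : 0 < 4096 * M * (36 * q) ^ q := by positivity
    have : 3 ≤ B := by rw [hB]; linarith
    linarith
  have hCb : (b : ℝ) ≤ C := by
    have : 0 < 4096 * M * (36 * q) ^ q := by positivity
    have : (b : ℝ) ≤ B := by rw [hB]; linarith
    linarith
  have hCM : 256 * M ≤ C := by
    have : 256 * M ≤ B := by rw [hB]; nlinarith
    linarith
  refine ⟨C, hC1, ?_⟩
  intro ε δ κ hε hκ hκδ hκδ' N hNC hNexp
  have hκ1 : κ ≤ 1 := by linarith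
  have hκ9 : κ ^ 9 ≤ 1 := pow_le_one₀ hκ.le hκ1
  have hNr : C ≤ N := by
    have : κ ^ 9 * N ≤ 1 * N := mul_le_mul_of_nonneg_right hκ9 (by positivity)
    linarith
  have hN3 : (3 : ℝ) ≤ N := by linarith
  have hN0 : (0 : ℝ) < N := by linarith
  have hN1 : (1 : ℝ) ≤ N := by linarith
  have hN1' : 1 ≤ N := by exact_mod_cast hN1
  set t : ℝ := Real.log N with ht
  have ht1 : 1 ≤ t := by
    rw [ht, Real.le_log_iff_exp_le hN0]
    have := Real.exp_one_lt_d9
    linarith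
  have ht0 : 0 < t := by linarith
  -- the parameter Y
  set Y : ℝ := κ ^ 2 / (C * ε) with hY
  have hY0 : 0 < Y := by rw [hY]; positivity
  have htY : t ≤ Y ^ c := by
    have := Real.log_le_log hN0 hNexp
    rwa [Real.log_exp] at this
  have hY1 : 1 ≤ Y := by
    by_contra hcon
    push Not at hcon
    have := Real.rpow_lt_one hY0.le hcon hc0
    linarith
  have htqY : t ^ q ≤ Y := by
    calc t ^ q ≤ (Y ^ c) ^ q := Real.rpow_le_rpow ht0.le htY hq0.le
      _ = Y ^ (c * q) := (Real.rpow_mul hY0.le _ _).symm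
      _ ≤ Y ^ (1 : ℝ) := Real.rpow_le_rpow_of_exponent_le hY1 hcq
      _ = Y := Real.rpow_one Y
  -- the parameter m
  set u : ℝ := t ^ (1 / (b : ℝ)) with hu
  have hu1 : 1 ≤ u := Real.one_le_rpow ht1 (by positivity)
  have hub : u ^ b = t := by
    rw [hu, ← Real.rpow_natCast, ← Real.rpow_mul ht0.le]
    rw [one_div, inv_mul_cancel₀ hb0.ne', Real.rpow_one]
  set m : ℕ := m₀ * ⌈u⌉₊ with hm
  have hceil1 : u ≤ (⌈u⌉₊ : ℝ) := Nat.le_ceil u
  have hceil2 : (⌈u⌉₊ : ℝ) ≤ 2 * u := by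
    have := Nat.ceil_lt_add_one (by linarith : (0 : ℝ) ≤ u)
    linarith
  have hceil3 : 1 ≤ ⌈u⌉₊ := by
    have : (1 : ℝ) ≤ (⌈u⌉₊ : ℝ) := le_trans hu1 hceil1
    exact_mod_cast this
  have hmm₀ : m₀ ≤ m := by rw [hm]; exact Nat.le_mul_of_pos_right _ (by omega)
  have hmr : (m : ℝ) = m₀ * (⌈u⌉₊ : ℝ) := by rw [hm]; push_cast; ring
  have hmlow : (m₀ : ℝ) * u ≤ m := by rw [hmr]; gcongr
  have hmup : (m : ℝ) ≤ 2 * m₀ * u := by
    rw [hmr]
    calc (m₀ : ℝ) * (⌈u⌉₊ : ℝ) ≤ m₀ * (2 * u) := by gcongr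
      _ = _ := by ring
  have hm0 : (0 : ℝ) < m := by
    have : (0 : ℝ) < m₀ * u := by positivity
    linarith
  have hmpow : (m : ℝ) ^ (10 * b + 43) ≤ M * t ^ q := by
    calc (m : ℝ) ^ (10 * b + 43) ≤ (2 * m₀ * u) ^ (10 * b + 43) :=
          pow_le_pow_left₀ hm0.le hmup _
      _ = M * u ^ (10 * b + 43) := by rw [hM, mul_pow]
      _ = M * t ^ q := by
          congr 1
          rw [hu, ← Real.rpow_natCast, ← Real.rpow_mul ht0.le]
          congr 1
          rw [hq]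
          push_cast
          field_simp
  have hmpow2 : (m : ℝ) ^ (10 * b + 42) ≤ (m : ℝ) ^ (10 * b + 43) := by
    apply pow_le_pow_right₀ _ (by omega)
    have : (m₀ : ℝ) ≤ m := by exact_mod_cast hmm₀
    linarith
  -- the parameter K
  have hlog2m : 2 ≤ Nat.log 2 m := by
    apply Nat.le_log_of_pow_le (by norm_num)
    have : 110 ≤ m := by
      have h1 : (110 : ℝ) ≤ m := by
        have : (m₀ : ℝ) ≤ m := by exact_mod_cast hmm₀
        linarith
      exact_mod_cast h1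
    omega
  set K : ℕ := Nat.log 2 m - 1 with hK
  have hK2 : 2 ^ (K + 1) ≤ m := by
    have e : K + 1 = Nat.log 2 m := by omega
    rw [e]
    exact Nat.pow_log_le_self 2 (by
      intro h0
      rw [h0] at hm0
      simp at hm0)
  have hKbig : 1 + Real.log (Real.log N) / C ≤ K := by
    have h1 : (m : ℝ) < 2 ^ (K + 2) := by
      have h2 := Nat.lt_pow_succ_log_self (b := 2) (by norm_num) m
      have e : K + 2 = (Nat.log 2 m).succ := by omega
      rw [e]
      exact_mod_cast h2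
    have h2 : Real.log m ≤ K + 2 := by
      have h3 : Real.log m ≤ Real.log (2 ^ (K + 2)) := Real.log_le_log hm0 h1.le
      rw [Real.log_pow] at h3
      push_cast at h3
      have h4 : Real.log 2 ≤ 1 := by
        have := Real.log_two_lt_d9
        linarith
      have h5 : ((K : ℝ) + 2) * Real.log 2 ≤ (K + 2) * 1 :=
        mul_le_mul_of_nonneg_left h4 (by positivity)
      linarith
    have h3 : Real.log (m₀ * u) ≤ Real.log m := Real.log_le_log (by positivity) hmlow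
    have hm₀0 : (0 : ℝ) < m₀ := by linarith
    rw [Real.log_mul hm₀0.ne' (by positivity)] at h3
    have h4 : Real.log u = (1 / b) * Real.log t := by rw [hu, Real.log_rpow ht0]
    have h5 : (3 : ℝ) ≤ Real.log m₀ := by
      rw [Real.le_log_iff_exp_le hm₀0]
      have h6 : Real.exp 3 = (Real.exp 1) ^ 3 := by
        rw [← Real.exp_nat_mul]; norm_num
      have h7 : (Real.exp 1) ^ 3 ≤ 2.7182818286 ^ 3 :=
        pow_le_pow_left₀ (Real.exp_pos 1).le Real.exp_one_lt_d9.le 3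
      rw [h6]
      norm_num at h7
      linarith
    have h6 : Real.log t / C ≤ (1 / b) * Real.log t := by
      have h7 : 0 ≤ Real.log t := Real.log_nonneg ht1
      rw [div_eq_inv_mul, ← one_div]
      apply mul_le_mul_of_nonneg_right _ h7
      exact one_div_le_one_div_of_le hb0 hCb
    rw [← ht]
    linarith
  refine ⟨K, hKbig, ?_⟩
  -- the fourth root
  set w : ℝ := (N : ℝ) ^ (1 / 4 : ℝ) with hw
  have hw0 : 0 ≤ w := by rw [hw]; positivity
  have hw4 : w ^ 4 = N := by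
    rw [hw, ← Real.rpow_natCast, ← Real.rpow_mul hN0.le]
    norm_num
  refine nopop_of_m b m K N hb1 hmm₀ hK2 hN1' ?_ w hw0 hw4 ε δ κ hκ hκδ hκδ' ?_ ?_
  · rw [← ht, ← hub]
    apply pow_le_pow_left₀ (by linarith)
    have : (1 : ℝ) * u ≤ m₀ * u := mul_le_mul_of_nonneg_right (by linarith) (by linarith)
    linarith
  · -- `4096 m^(10b+43) < w κ²`
    have h1 : 4096 * (m : ℝ) ^ (10 * b + 43) ≤ 4096 * M * (36 * q) ^ q * (N : ℝ) ^ (1 / 36 : ℝ) := by
      have h2 := log_pow_le q hq0 N hN1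
      rw [← ht] at h2
      calc 4096 * (m : ℝ) ^ (10 * b + 43) ≤ 4096 * (M * t ^ q) := by gcongr
        _ ≤ 4096 * (M * ((36 * q) ^ q * (N : ℝ) ^ (1 / 36 : ℝ))) := by gcongr
        _ = _ := by ring
    have hN36 : 0 < (N : ℝ) ^ (1 / 36 : ℝ) := by positivity
    have h2 : 4096 * M * (36 * q) ^ q * (N : ℝ) ^ (1 / 36 : ℝ) < B * (N : ℝ) ^ (1 / 36 : ℝ) := by
      apply mul_lt_mul_of_pos_right _ hN36
      rw [hB]; linarith
    have h3 : B * (N : ℝ) ^ (1 / 36 : ℝ) ≤ w * κ ^ 2 := by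
      -- compare ninth powers
      have h4 : (B * (N : ℝ) ^ (1 / 36 : ℝ)) ^ 9 ≤ (w * κ ^ 2) ^ 9 := by
        have e1 : (B * (N : ℝ) ^ (1 / 36 : ℝ)) ^ 9 = B ^ 9 * (N : ℝ) ^ (1 / 4 : ℝ) := by
          rw [mul_pow, ← Real.rpow_natCast ((N : ℝ) ^ (1 / 36 : ℝ)), ← Real.rpow_mul hN0.le]
          norm_num
        have e2 : (w * κ ^ 2) ^ 9 = (κ ^ 9) ^ 2 * (w ^ 4) ^ 2 * w := by ring
        rw [e1, e2, hw4, ← hw]
        apply mul_le_mul_of_nonneg_right _ hw0
        have e3 : (κ ^ 9) ^ 2 * (N : ℝ) ^ 2 = (κ ^ 9 * N) ^ 2 := by ring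
        rw [e3]
        calc B ^ 9 ≤ B ^ 10 := pow_le_pow_right₀ hB1 (by norm_num)
          _ = C ^ 2 := by rw [hC]; ring
          _ ≤ _ := pow_le_pow_left₀ (by linarith) hNC 2
      exact (pow_le_pow_iff_left₀ (by positivity) (by positivity) (by norm_num)).mp h4
    linarith
  · -- `256 m^(10b+42) ε ≤ κ²`
    have h1 : (m : ℝ) ^ (10 * b + 42) ≤ M * Y := by
      calc _ ≤ _ := hmpow2
        _ ≤ _ := hmpow
        _ ≤ _ := by gcongr
    calc 256 * (m : ℝ) ^ (10 * b + 42) * ε ≤ 256 * (M * Y) * ε := by gcongr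
      _ = (256 * M) * (Y * ε) := by ring
      _ ≤ C * (Y * ε) := by gcongr
      _ = κ ^ 2 := by rw [hY]; field_simp

end Pool.Agent.Y416.FS
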