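import Pool.Agent.Y416.FS.Bad

/-!
# Popular square differences: choice of the primes
-/

open Finset Pool.Agent.Helper235.Chars Pool.Agent.Helper235.Round

namespace Pool.Agent.Y416.FS

lemma pi_lowerR (b m : ℕ) (hm : 10 * (2 * b + 9) ≤ m) :
    3 * m ^ (2 * b + 7) ≤ Nat.primeCounting (m ^ (2 * b + 9)) := by
  have hm1 : 1 < m := by omega
  have hmr : (10 : ℝ) * (2 * b + 9) ≤ m := by exact_mod_cast hm
  have hb0 : (0 : ℝ) ≤ b := by positivity
  have hm90 : (90 : ℝ) ≤ m := by linarith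
  have hm0 : (0 : ℝ) < m := by linarith
  have h := Chebyshev.pi_ge (m ^ (2 * b + 9))
  have hlogm : Real.log m ≤ m := by
    have := Real.log_le_sub_one_of_pos hm0
    linarith
  have hlogm1 : 0 < Real.log m := Real.log_pos (by linarith)
  push_cast at h
  rw [Real.log_pow] at h
  have e1 : Real.log ((m : ℝ) ^ (2 * b + 9) + 1) ≤ (2 * b + 10) * m := by
    have : (m : ℝ) ^ (2 * b + 9) + 1 ≤ (m : ℝ) ^ (2 * b + 10) := by
      have h1 : (1 : ℝ) ≤ (m : ℝ) ^ (2 * b + 9) := one_le_pow₀ (by linarith)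
      have h2 : (m : ℝ) ^ (2 * b + 10) = m * (m : ℝ) ^ (2 * b + 9) := by ring
      rw [h2]; nlinarith
    calc Real.log ((m : ℝ) ^ (2 * b + 9) + 1) ≤ Real.log ((m : ℝ) ^ (2 * b + 10)) :=
          Real.log_le_log (by positivity) this
      _ = (2 * b + 10) * Real.log m := by rw [Real.log_pow]; push_cast; ring
      _ ≤ (2 * b + 10) * m := mul_le_mul_of_nonneg_left hlogm (by linarith)
  have hlog2' : (0.6 : ℝ) ≤ Real.log 2 := by
    have := Real.log_two_gt_d9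
    linarith
  have e2 : (m : ℝ) ^ (2 * b + 9) * 0.6 ≤ (m : ℝ) ^ (2 * b + 9) * Real.log 2 :=
    mul_le_mul_of_nonneg_left hlog2' (by positivity)
  have h3 : (3 : ℝ) * (m : ℝ) ^ (2 * b + 7) ≤ Nat.primeCounting (m ^ (2 * b + 9)) := by
    refine le_trans ?_ h
    push_cast
    rw [le_div_iff₀ (by positivity)]
    have e3 : 3 * (m : ℝ) ^ (2 * b + 7) * ((2 * b + 9) * Real.log m) ≤
        3 * (m : ℝ) ^ (2 * b + 7) * ((2 * b + 9) * m) := by gcongr
    have e4 : 3 * (m : ℝ) ^ (2 * b + 7) * ((2 * b + 9) * m) =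
        (3 / 10) * (m : ℝ) ^ (2 * b + 8) * (10 * (2 * b + 9)) := by ring
    have e5 : (3 / 10) * (m : ℝ) ^ (2 * b + 8) * (10 * (2 * b + 9)) ≤
        (3 / 10) * (m : ℝ) ^ (2 * b + 8) * m := mul_le_mul_of_nonneg_left hmr (by positivity)
    have e6 : (3 / 10) * (m : ℝ) ^ (2 * b + 8) * m = 0.3 * (m : ℝ) ^ (2 * b + 9) := by ring
    have e7 : (2 * b + 10) * (m : ℝ) ≤ 0.3 * (m : ℝ) ^ (2 * b + 9) := by
      have f1 : (2 * (b : ℝ) + 10) * m ≤ m * m := mul_le_mul_of_nonneg_right (by linarith) hm0.le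
      have f2 : (m : ℝ) * m * m ≤ (m : ℝ) ^ (2 * b + 9) := by
        calc (m : ℝ) * m * m = (m : ℝ) ^ 3 := by ring
          _ ≤ _ := pow_le_pow_right₀ (by linarith) (by omega)
      have f3 : (m : ℝ) * m * 90 ≤ m * m * m := mul_le_mul_of_nonneg_left hm90 (by positivity)
      have f4 : 0 ≤ (m : ℝ) * m := by positivity
      linarith
    linarith
  exact_mod_cast h3

lemma ch_pm (p a : ℕ) (hp : p.Prime) (h : ¬ p ∣ a) : ch p a = 1 ∨ ch p a = -1 :=
  mul_self_eq_one_iff.mp (ch_sq_one p a hp h)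

theorem exists_dat (b m K : ℕ) (hm : 10 * (2 * b + 9) ≤ m) (hK : 2 ^ (K + 1) ≤ m) :
    ∃ Pa Pb : Finset ℕ, Dat (m ^ (2 * b + 6)) (m ^ (2 * b + 9)) (m ^ (2 * b + 6)) K Pa Pb := by
  classical
  have hm1 : 1 < m := by omega
  set L : ℕ := m ^ (2 * b + 6) with hL
  set R : ℕ := m ^ (2 * b + 9) with hR
  have hmL : m ≤ L := by
    rw [hL]
    calc m = m ^ 1 := (pow_one m).symm
      _ ≤ _ := Nat.pow_le_pow_right (by omega) (by omega)
  have hKL : K ≤ L := by
    have : K < 2 ^ (K + 1) := lt_trans (Nat.lt_succ_self K) Nat.lt_two_pow_self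
    omega
  have hLR : L ≤ R := Nat.pow_le_pow_right (by omega) (by omega)
  set P : Finset ℕ := (Finset.Ioc L R).filter Nat.Prime with hP
  have hPcard : Nat.primeCounting R ≤ P.card + L := by
    have e : Nat.primeCounting R = ((Finset.range (R + 1)).filter Nat.Prime).card := by
      rw [Nat.primeCounting, Nat.primeCounting', Nat.count_eq_card_filter_range]
    rw [e]
    have hsub : (Finset.range (R + 1)).filter Nat.Prime ⊆ P ∪ Finset.Ioc 0 L := by
      intro p hp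
      rw [Finset.mem_filter, Finset.mem_range] at hp
      rw [Finset.mem_union, hP, Finset.mem_filter, Finset.mem_Ioc, Finset.mem_Ioc]
      have := hp.2.pos
      by_cases h : p ≤ L
      · right; exact ⟨this, h⟩
      · left; exact ⟨⟨by omega, by omega⟩, hp.2⟩
    calc _ ≤ (P ∪ Finset.Ioc 0 L).card := Finset.card_le_card hsub
      _ ≤ P.card + (Finset.Ioc 0 L).card := Finset.card_union_le _ _
      _ = P.card + L := by simp
  have hbig : 2 ^ (K + 1) * (2 * L) ≤ P.card := by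
    have h1 := pi_lowerR b m hm
    have h2 : L ≤ m ^ (2 * b + 7) := Nat.pow_le_pow_right (by omega) (by omega)
    have h3 : 2 ^ (K + 1) * (2 * L) ≤ m * (2 * L) := Nat.mul_le_mul_right _ hK
    have h4 : m * (2 * L) = 2 * m ^ (2 * b + 7) := by
      rw [hL]; ring
    rw [← hR] at h1
    omega
  have hmem : ∀ p ∈ P, p.Prime ∧ L < p ∧ p ≤ R := by
    intro p hp
    rw [hP, Finset.mem_filter, Finset.mem_Ioc] at hp
    exact ⟨hp.2, hp.1.1, hp.1.2⟩
  -- the classes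
  let F : ℕ → Bool × (Fin K → Bool) := fun p =>
    (decide (p % 4 = 1), fun i => decide (ch p ((i : ℕ) + 1) = 1))
  have hcardT : (Finset.univ : Finset (Bool × (Fin K → Bool))).card = 2 ^ (K + 1) := by
    rw [Finset.card_univ, Fintype.card_prod, Fintype.card_fun]
    simp
    ring
  obtain ⟨v, _, hv⟩ := Finset.exists_le_card_fiber_of_mul_le_card_of_maps_to
    (s := P) (t := (Finset.univ : Finset (Bool × (Fin K → Bool)))) (f := F) (n := 2 * L)
    (fun a _ => Finset.mem_univ _) Finset.univ_nonempty (by rw [hcardT]; exact hbig)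
  set Q : Finset ℕ := {x ∈ P | F x = v} with hQ
  obtain ⟨Pa, hPa, hPacard⟩ := Finset.exists_subset_card_eq (show L ≤ Q.card by omega)
  obtain ⟨Pb, hPb, hPbcard⟩ := Finset.exists_subset_card_eq (s := Q \ Pa) (n := L) (by
    rw [Finset.card_sdiff_of_subset hPa]; omega)
  have hPbQ : ∀ p ∈ Pb, p ∈ Q := fun p hp => (Finset.mem_sdiff.mp (hPb hp)).1
  have hQP : ∀ p ∈ Q, p ∈ P := fun p hp => (Finset.mem_filter.mp hp).1
  have hQF : ∀ p ∈ Q, F p = v := fun p hp => (Finset.mem_filter.mp hp).2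
  refine ⟨Pa, Pb, ⟨by omega, hLR, hKL, fun p hp => hmem p (hQP p (hPa hp)),
    fun p hp => hmem p (hQP p (hPbQ p hp)), ?_, hPacard, hPbcard, ?_, ?_⟩⟩
  · rw [Finset.disjoint_left]
    intro p hp hp'
    exact (Finset.mem_sdiff.mp (hPb hp')).2 hp
  · intro p hp q hq
    have hp1 := hmem p (hQP p (hPa hp))
    have hq1 := hmem q (hQP q (hPbQ q hq))
    have e : F p = F q := (hQF p (hPa hp)).trans (hQF q (hPbQ q hq)).symm
    have e1 : decide (p % 4 = 1) = decide (q % 4 = 1) := congrArg Prod.fst e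
    have e2 : p % 4 = 1 ↔ q % 4 = 1 := by simpa using e1
    have o1 : p % 2 = 1 := by
      rcases hp1.1.eq_two_or_odd with h | h
      · omega
      · exact h
    have o2 : q % 2 = 1 := by
      rcases hq1.1.eq_two_or_odd with h | h
      · omega
      · exact h
    omega
  · intro p hp q hq a ha1 haK
    have hp1 := hmem p (hQP p (hPa hp))
    have hq1 := hmem q (hQP q (hPbQ q hq))
    have e : F p = F q := (hQF p (hPa hp)).trans (hQF q (hPbQ q hq)).symm
    have e1 : (F p).2 ⟨a - 1, by omega⟩ = (F q).2 ⟨a - 1, by omega⟩ := by rw [e]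
    have e0 : a - 1 + 1 = a := by omega
    simp only [F, e0] at e1
    have e2 : ch p a = 1 ↔ ch q a = 1 := by simpa using e1
    have n1 : ¬ p ∣ a := by
      intro hd
      have := Nat.le_of_dvd (by omega) hd
      omega
    have n2 : ¬ q ∣ a := by
      intro hd
      have := Nat.le_of_dvd (by omega) hd
      omega
    rcases ch_pm p a hp1.1 n1 with h | h <;> rcases ch_pm q a hq1.1 n2 with h' | h'
    · rw [h, h']
    · have := e2.mp h; rw [h, this]
    · have := e2.mpr h'; rw [h', this]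
    · rw [h, h']

/-- The construction for the parameter `m`: all scales with `N^{1/4}` large in terms of `m` and
`log N ≤ m ^ b`. -/
theorem nopop_of_m (b m K N : ℕ) (hb : 1 ≤ b) (hm : 10 * (2 * b + 9) ≤ m) (hK : 2 ^ (K + 1) ≤ m)
    (hN1 : 1 ≤ N) (hNm : Real.log N ≤ (m : ℝ) ^ b) (w : ℝ) (hw : 0 ≤ w) (hwN : w ^ 4 = N)
    (ε δ κ : ℝ) (hκ : 0 < κ) (hκδ : κ ≤ δ) (hκδ' : κ ≤ 1 - δ)
    (hbig : 4096 * (m : ℝ) ^ (10 * b + 43) < w * κ ^ 2)
    (hε : 256 * (m : ℝ) ^ (10 * b + 42) * ε ≤ κ ^ 2) : NoPop ε δ N K := by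
  obtain ⟨Pa, Pb, H⟩ := exists_dat b m K hm hK
  have hm90 : 90 ≤ m := by omega
  have hmr : (90 : ℝ) ≤ m := by exact_mod_cast hm90
  have hm0 : (0 : ℝ) < m := by linarith
  have hm1 : (1 : ℝ) ≤ m := by linarith
  set T : ℕ := m ^ b / 4 with hT
  have hT4 : 4 * T ≤ m ^ b := by omega
  have hmb : m ≤ m ^ b := by
    calc m = m ^ 1 := (pow_one m).symm
      _ ≤ _ := Nat.pow_le_pow_right (by omega) hb
  have hT8 : m ^ b ≤ 8 * T := by omega
  have hbS : m ^ b ≤ m ^ (2 * b + 6) := Nat.pow_le_pow_right (by omega) (by omega)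
  have hTr : (4 : ℝ) * T ≤ (m : ℝ) ^ b := by exact_mod_cast hT4
  have hTr8 : (m : ℝ) ^ b ≤ 8 * T := by exact_mod_cast hT8
  have hN0 : (0 : ℝ) < N := by exact_mod_cast hN1
  have hκ1 : κ ≤ 1 := by linarith
  have hκ2 : κ ^ 2 ≤ 1 := pow_le_one₀ hκ.le hκ1
  have hw1 : 4096 * (m : ℝ) ^ (10 * b + 43) < w := by
    have : w * κ ^ 2 ≤ w * 1 := mul_le_mul_of_nonneg_left hκ2 hw
    linarith
  have hpow1 : (1 : ℝ) ≤ (m : ℝ) ^ (10 * b + 43) := one_le_pow₀ hm1
  have hw1' : 1 ≤ w := by linarith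
  have hrho : rho (m ^ (2 * b + 6)) (m ^ (2 * b + 9)) (m ^ (2 * b + 6)) =
      1 / (32 * (m : ℝ) ^ (10 * b + 42)) := by
    unfold rho
    push_cast
    rw [div_eq_div_iff (by positivity) (by positivity)]
    ring
  have hsq : (Nat.sqrt N : ℝ) ≤ w ^ 2 := by
    have h1 : (Nat.sqrt N : ℝ) ^ 2 ≤ (w ^ 2) ^ 2 := by
      have : (Nat.sqrt N) ^ 2 ≤ N := Nat.sqrt_le' N
      have h2 : ((Nat.sqrt N : ℝ)) ^ 2 ≤ N := by exact_mod_cast this
      calc _ ≤ _ := h2
        _ = _ := by rw [← hwN]; ring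
    exact (pow_le_pow_iff_left₀ (by positivity) (by positivity) two_ne_zero).mp h1
  have hKm : (K : ℝ) + 1 ≤ m := by
    have : K + 1 < 2 ^ (K + 1) := Nat.lt_two_pow_self
    have : K + 1 ≤ m := by omega
    exact_mod_cast this
  refine bad_core H (Nat.one_le_pow _ _ (by omega)) T (by omega) ?_ N hN1 ?_ (2 * m * w ^ 3)
    (by positivity) ?_ ε δ κ hκ hκδ hκδ' ?_ ?_
  · push_cast
    have h1 : (16 : ℝ) * (T : ℝ) ^ 2 ≤ (m : ℝ) ^ (2 * b) := by
      have : (4 * (T : ℝ)) ^ 2 ≤ ((m : ℝ) ^ b) ^ 2 := pow_le_pow_left₀ (by positivity) hTr 2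
      calc (16 : ℝ) * (T : ℝ) ^ 2 = (4 * (T : ℝ)) ^ 2 := by ring
        _ ≤ _ := this
        _ = _ := by ring
    calc 16 * ((m : ℝ) ^ (2 * b + 9)) ^ 2 * (T : ℝ) ^ 2
        = ((m : ℝ) ^ (2 * b + 9)) ^ 2 * (16 * (T : ℝ) ^ 2) := by ring
      _ ≤ ((m : ℝ) ^ (2 * b + 9)) ^ 2 * (m : ℝ) ^ (2 * b) :=
          mul_le_mul_of_nonneg_left h1 (by positivity)
      _ = _ := by ring
  · have h1 : Real.log N ≤ Real.log (((m ^ (2 * b + 6)) ^ (2 * T) : ℕ) : ℝ) := by
      push_cast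
      rw [Real.log_pow, Real.log_pow]
      have hlogm : 1 ≤ Real.log m := by
        rw [Real.le_log_iff_exp_le hm0]
        have := Real.exp_one_lt_d9
        linarith
      push_cast
      have hTr0 : (0 : ℝ) ≤ T := by positivity
      have hb1 : (1 : ℝ) ≤ b := by exact_mod_cast hb
      calc Real.log N ≤ (m : ℝ) ^ b := hNm
        _ ≤ 8 * T := hTr8
        _ ≤ 2 * T * ((2 * b + 6) * 1) := by nlinarith
        _ ≤ 2 * T * ((2 * b + 6) * Real.log m) := by gcongr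
    have h2 : (N : ℝ) ≤ (((m ^ (2 * b + 6)) ^ (2 * T) : ℕ) : ℝ) :=
      (Real.log_le_log_iff hN0 (by positivity)).mp h1
    exact_mod_cast h2
  · have h1 : (K : ℝ) * Nat.sqrt N + 1 ≤ m * w ^ 2 := by
      have h2 : (K : ℝ) * Nat.sqrt N ≤ K * w ^ 2 := mul_le_mul_of_nonneg_left hsq (by positivity)
      have h3 : (1 : ℝ) ≤ w ^ 2 := one_le_pow₀ hw1'
      have h4 : ((K : ℝ) + 1) * w ^ 2 ≤ m * w ^ 2 := mul_le_mul_of_nonneg_right hKm (by positivity)
      linarith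
    calc (N : ℝ) * (K * Nat.sqrt N + 1) ≤ w ^ 4 * (m * w ^ 2) := by
          rw [hwN]
          exact mul_le_mul_of_nonneg_left h1 hN0.le
      _ = m * 1 * w ^ 6 := by ring
      _ ≤ m * (4 * m) * w ^ 6 := by gcongr; linarith
      _ = _ := by ring
  · rw [hrho]
    push_cast
    have h1 : w ≤ w ^ 3 := by
      calc w = w ^ 1 := (pow_one w).symm
        _ ≤ _ := pow_le_pow_right₀ hw1' (by norm_num)
    have h2 : ((m : ℝ) ^ (2 * b + 9)) ^ 4 ≤ (m : ℝ) ^ (10 * b + 43) := by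
      rw [← pow_mul]
      exact pow_le_pow_right₀ hm1 (by omega)
    have h3 : 8 * ((m : ℝ) ^ (2 * b + 9)) ^ 4 ≤ m * w ^ 3 := by
      have : (1 : ℝ) * w ^ 3 ≤ m * w ^ 3 := mul_le_mul_of_nonneg_right hm1 (by positivity)
      linarith
    have h4 : N * (κ ^ 2 * (1 / (32 * (m : ℝ) ^ (10 * b + 42))) / 8) =
        w ^ 3 * (w * κ ^ 2) / (256 * (m : ℝ) ^ (10 * b + 42)) := by
      rw [← hwN]
      field_simp
      ring
    rw [h4, lt_div_iff₀ (by positivity)]
    have h5 : 8 * ((m : ℝ) ^ (2 * b + 9)) ^ 4 + 4 * (2 * m * w ^ 3) ≤ 16 * (m * w ^ 3) := by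
      have : (0 : ℝ) ≤ m * w ^ 3 := by positivity
      linarith
    calc (8 * ((m : ℝ) ^ (2 * b + 9)) ^ 4 + 4 * (2 * m * w ^ 3)) * (256 * (m : ℝ) ^ (10 * b + 42))
        ≤ 16 * (m * w ^ 3) * (256 * (m : ℝ) ^ (10 * b + 42)) :=
          mul_le_mul_of_nonneg_right h5 (by positivity)
      _ = w ^ 3 * (4096 * (m : ℝ) ^ (10 * b + 43)) := by ring
      _ < w ^ 3 * (w * κ ^ 2) := mul_lt_mul_of_pos_left hbig (by positivity)
  · rw [hrho]
    have : κ ^ 2 * (1 / (32 * (m : ℝ) ^ (10 * b + 42))) / 8 =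
        κ ^ 2 / (256 * (m : ℝ) ^ (10 * b + 42)) := by field_simp; ring
    rw [this, le_div_iff₀ (by positivity)]
    linarith

end Pool.Agent.Y416.FS
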